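import Pool.Agent.helper88.RQ2.Spec

/-!
# Row GCO of project RQ (MP_bb0bb6_co, Q2)
-/

set_option autoImplicit false

open Set Matroid RadonMin

namespace RadonQ2

theorem GCO_proof (hGRA : GRA_stmt) : GCO_stmt := by
  intro V _ _ _ X
  rcases X.eq_empty_or_nonempty with rfl | hX
  · have h1 : ra (∅ : Finset V) ≤ 0 := by
      have h2 := rk_le_ncard (M := affMat (∅ : Finset V)) (X := (∅ : Set V)) (Set.empty_subset _)
      rw [Set.ncard_empty] at h2
      unfold ra
      rw [Finset.coe_empty]
      exact h2
    refine ⟨fun _ => ?_, fun _ => by omega⟩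
    rw [Finset.coe_empty]
    exact collinear_empty ℝ V
  · haveI : FiniteDimensional ℝ (vectorSpan ℝ (X : Set V)) := finiteDimensional_vectorSpan_of_finite ℝ X.finite_toSet
    rw [hGRA V X hX, collinear_iff_finrank_le_one]
    omega

end RadonQ2
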